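import Mathlib
import Pool.Agent.X26.LF.Stm

set_option autoImplicit false

namespace Pool.Agent.X130.LF

open Finset

theorem card_fib {V W : Type} [AddCommGroup V] [Fintype V] [AddCommGroup W] [Fintype W]
    [DecidableEq W] (φ : V →+ W) (h : Function.Surjective φ) (w : W) :
    Fintype.card W * (univ.filter fun x => φ x = w).card = Fintype.card V := by
  have h1 : ∀ w' : W, (univ.filter fun x => φ x = w').card = (univ.filter fun x => φ x = w).card := by
    intro w'
    obtain ⟨a, ha⟩ := h (w' - w)
    refine Finset.card_bij (fun x _ => x - a) ?_ ?_ ?_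
    · intro x hx
      rw [Finset.mem_filter] at hx ⊢
      refine ⟨Finset.mem_univ _, ?_⟩
      rw [map_sub, hx.2, ha]
      abel
    · intro x _ y _ hxy
      simpa using hxy
    · intro y hy
      rw [Finset.mem_filter] at hy
      refine ⟨y + a, ?_, by simp⟩
      rw [Finset.mem_filter]
      refine ⟨Finset.mem_univ _, ?_⟩
      rw [map_add, hy.2, ha]
      abel
  have h2 := Finset.card_eq_sum_card_fiberwise (s := (univ : Finset V)) (t := (univ : Finset W))
    (f := φ) (fun x _ => Finset.mem_univ _)
  rw [Finset.sum_congr rfl (fun w' _ => h1 w'), Finset.sum_const, Finset.card_univ, Finset.card_univ,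
    smul_eq_mul] at h2
  exact h2.symm

theorem t_CNT : Pool.Agent.X26.LF.S_CNT := by
  intro p N _ c d s t hc
  have hj : ∃ j, c j ≠ 0 := by
    by_contra h
    push Not at h
    exact hc (funext h)
  obtain ⟨j, hj⟩ := hj
  let φ : (Fin N → ZMod p) →+ ZMod p :=
    { toFun := fun x => ∑ i, c i * x i
      map_zero' := by simp
      map_add' := fun x y => by simp [mul_add, Finset.sum_add_distrib] }
  let ψ : (Fin N → ZMod p) →+ ZMod p :=
    { toFun := fun x => ∑ i, d i * x i
      map_zero' := by simp
      map_add' := fun x y => by simp [mul_add, Finset.sum_add_distrib] }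
  have hφ1 : ∀ (i : Fin N) (a : ZMod p), φ (Pi.single i a) = c i * a := by
    intro i a
    show ∑ k, c k * (Pi.single i a : Fin N → ZMod p) k = c i * a
    rw [Finset.sum_eq_single i]
    · simp
    · intro k _ hk; simp [hk]
    · simp
  have hψ1 : ∀ (i : Fin N) (a : ZMod p), ψ (Pi.single i a) = d i * a := by
    intro i a
    show ∑ k, d k * (Pi.single i a : Fin N → ZMod p) k = d i * a
    rw [Finset.sum_eq_single i]
    · simp
    · intro k _ hk; simp [hk]
    · simp
  have hcard : Fintype.card (Fin N → ZMod p) = p ^ N := by simp [ZMod.card]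
  refine ⟨?_, fun hd => ?_⟩
  · have hs : Function.Surjective φ := by
      intro w
      refine ⟨Pi.single j (w / c j), ?_⟩
      rw [hφ1]
      field_simp
    have := card_fib φ hs s
    rw [hcard, ZMod.card] at this
    exact this
  · have hi : ∃ i, d i ≠ d j / c j * c i := by
      by_contra h
      push Not at h
      exact hd ⟨d j / c j, funext h⟩
    obtain ⟨i, hi⟩ := hi
    have hD : c j * d i - c i * d j ≠ 0 := by
      intro h
      apply hi
      field_simp
      linear_combination h
    have hs : Function.Surjective (φ.prod ψ) := by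
      rintro ⟨w, z⟩
      refine ⟨Pi.single j ((w * d i - c i * z) / (c j * d i - c i * d j)) +
        Pi.single i ((c j * z - w * d j) / (c j * d i - c i * d j)), ?_⟩
      rw [map_add, AddMonoidHom.prod_apply, AddMonoidHom.prod_apply, hφ1, hφ1, hψ1, hψ1,
        Prod.mk_add_mk, Prod.mk.injEq]
      constructor
      · rw [← mul_div_assoc, ← mul_div_assoc, ← add_div, div_eq_iff hD]; ring
      · rw [← mul_div_assoc, ← mul_div_assoc, ← add_div, div_eq_iff hD]; ring
    have := card_fib (φ.prod ψ) hs (s, t)
    rw [hcard, Fintype.card_prod, ZMod.card, ← pow_two] at this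
    rw [← this]
    congr 2
    ext x
    simp only [Finset.mem_filter, Finset.mem_univ, true_and, AddMonoidHom.prod_apply, Prod.mk.injEq]
    rfl

end Pool.Agent.X130.LF
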