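import Mathlib
import Pool.Agent.NPC.Defs

set_option autoImplicit false

/-!
# Solution-free subsets for linear equations
-/

namespace Pool.Agent.X130.LF

open Pool.Agent.NPC

/-- The coefficients `(a_1, …, a_ℓ, -b)` of the equation `a_1 x_1 + ⋯ + a_ℓ x_ℓ = b y`. -/
def coef {l : ℕ} (a : Fin l → ℕ) (b : ℕ) : Fin (l + 1) → ℤ :=
  Fin.snoc (fun i => (a i : ℤ)) (-(b : ℤ))

/-- `z` is a solution of `∑ c_i z_i = 0`. -/
def IsSol {m : ℕ} (c z : Fin m → ℤ) : Prop := ∑ i, c i * z i = 0

/-- The tuple `z` is trivial for the coefficients `c`: the index set has a partition such that `z` is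
constant on every class and the coefficients of every class have sum `0`. -/
def IsTriv {m : ℕ} (c z : Fin m → ℤ) : Prop :=
  ∃ P : Finpartition (Finset.univ : Finset (Fin m)),
    ∀ p ∈ P.parts, (∀ i ∈ p, ∀ j ∈ p, z i = z j) ∧ ∑ i ∈ p, c i = 0

/-- `S` is solution-free: no tuple of elements of `S` is a non-trivial solution. -/
def LFree {m : ℕ} (c : Fin m → ℤ) (S : Finset ℤ) : Prop :=
  ∀ z : Fin m → ℤ, (∀ i, z i ∈ S) → IsSol c z → IsTriv c z

/-- The decision problem: given a finite set `A` of integers (a list without repetitions) and `k`, does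
`A` contain a solution-free subset with at least `k` elements? -/
def FreeSubset {m : ℕ} (c : Fin m → ℤ) (I : List ℤ × ℕ) : Prop :=
  I.1.Nodup ∧ ∃ S : Finset ℤ, (∀ x ∈ S, x ∈ I.1) ∧ I.2 ≤ S.card ∧ LFree c S

/-- The restriction of the problem to the instances `(A, k)` with `|x| ≤ p(|A|)` for all `x ∈ A`. -/
def FreeSubsetBdd {m : ℕ} (c : Fin m → ℤ) (p : Polynomial ℕ) (I : List ℤ × ℕ) : Prop :=
  (∀ x ∈ I.1, x.natAbs ≤ p.eval I.1.length) ∧ FreeSubset c I

end Pool.Agent.X130.LF
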