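import Mathlib
import Pool.Agent.X130.LF.Defs

set_option autoImplicit false

/-!
# Solutions in the constructed sets
-/

namespace Pool.Agent.X130.LF

/-- digits of a vanishing number vanish -/
theorem digits_zero {B : ℤ} : ∀ (n : ℕ) (s : ℕ → ℤ), (∀ j < n, |s j| < B) →
    ∑ j ∈ Finset.range n, B ^ j * s j = 0 → ∀ j < n, s j = 0 := by
  intro n
  induction n with
  | zero => intro s _ _ j hj; omega
  | succ n ih =>
    intro s hs h
    have hB : 0 < B := (abs_nonneg _).trans_lt (hs 0 (by omega))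
    rw [Finset.sum_range_succ'] at h
    have h1 : ∑ k ∈ Finset.range n, B ^ (k + 1) * s (k + 1) =
        B * ∑ k ∈ Finset.range n, B ^ k * s (k + 1) := by
      rw [Finset.mul_sum]
      refine Finset.sum_congr rfl fun k _ => ?_
      ring
    rw [h1, pow_zero, one_mul] at h
    have h2 : B ∣ s 0 := ⟨-∑ k ∈ Finset.range n, B ^ k * s (k + 1), by linarith⟩
    have h3 : s 0 = 0 := Int.eq_zero_of_abs_lt_dvd h2 (hs 0 (by omega))
    rw [h3, add_zero] at h
    have h4 := (mul_eq_zero.1 h).resolve_left hB.ne'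
    have h5 := ih (fun k => s (k + 1)) (fun j hj => hs (j + 1) (by omega)) h4
    intro j hj
    cases j with
    | zero => exact h3
    | succ j => exact h5 j (by omega)

/-- items: vertices and edges -/
abbrev It : Type := ℕ ⊕ (ℕ × ℕ)

/-- the value of an item -/
def val (b a0 a1 : ℤ) (f : ℕ → ℤ) : It → ℤ
  | .inl v => b * f v
  | .inr e => a0 * f e.1 + a1 * f e.2

/-- the vertices of an item -/
def verts : It → List ℕ
  | .inl v => [v]
  | .inr e => [e.1, e.2]

theorem val_lin (b a0 a1 : ℤ) {n : ℕ} (B : ℤ) (g : ℕ → ℕ → ℤ) (q : It) :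
    val b a0 a1 (fun v => ∑ j ∈ Finset.range n, B ^ j * g j v) q =
      ∑ j ∈ Finset.range n, B ^ j * val b a0 a1 (g j) q := by
  cases q with
  | inl v =>
    simp only [val, Finset.mul_sum]
    refine Finset.sum_congr rfl fun k _ => ?_
    ring
  | inr e =>
    simp only [val, Finset.mul_sum, ← Finset.sum_add_distrib]
    refine Finset.sum_congr rfl fun k _ => ?_
    ring

section
variable {l : ℕ} {a : Fin l → ℕ} {b : ℕ} {ι : ℕ → ℤ} {n : ℤ}

theorem sum_coef (x : Fin (l + 1) → ℤ) :
    ∑ i, coef a b i * x i = ∑ i : Fin l, (a i : ℤ) * x i.castSucc - b * x (Fin.last l) := by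
  rw [Fin.sum_univ_castSucc]
  simp [coef]
  ring

/-- a bound of the values -/
theorem val_bound {W : ℤ} {a0 a1 : ℤ} {M : ℤ} {f : ℕ → ℤ} (hb : 0 ≤ (b : ℤ)) (h0 : 0 ≤ a0)
    (h1 : 0 ≤ a1) (hbW : (b : ℤ) ≤ W) (haW : a0 + a1 ≤ W) (hM : 0 ≤ M) {q : It}
    (hq : ∀ v ∈ verts q, 0 ≤ f v ∧ f v ≤ M) :
    0 ≤ val b a0 a1 f q ∧ val b a0 a1 f q ≤ W * M := by
  cases q with
  | inl v =>
    simp only [val]
    have hq := hq v (by simp [verts])
    exact ⟨mul_nonneg hb hq.1, (mul_le_mul_of_nonneg_left hq.2 hb).trans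
      (mul_le_mul_of_nonneg_right hbW hM)⟩
  | inr e =>
    simp only [val]
    have hq1 := hq e.1 (by simp [verts])
    have hq2 := hq e.2 (by simp [verts])
    refine ⟨add_nonneg (mul_nonneg h0 hq1.1) (mul_nonneg h1 hq2.1), ?_⟩
    have h2 := mul_le_mul_of_nonneg_left hq1.2 h0
    have h3 := mul_le_mul_of_nonneg_left hq2.2 h1
    have h4 := mul_le_mul_of_nonneg_right haW hM
    linarith

/-- all moments of a solution vanish -/
theorem moments {B W N : ℤ} {a0 a1 : ℤ} {q : Fin (l + 1) → It}
    (h0 : 0 ≤ a0) (h1 : 0 ≤ a1) (haW : a0 + a1 ≤ W)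
    (hW : ∑ i, (a i : ℤ) + b ≤ W) (hbW : (b : ℤ) ≤ W) (hN : 1 ≤ N)
    (hB : W * (W * N ^ 4) < B)
    (hq : ∀ i, ∀ v ∈ verts (q i), 0 ≤ ι v ∧ ι v ≤ N)
    (hs : ∑ i, coef a b i * val b a0 a1 (fun v => ∑ j ∈ Finset.range 5, B ^ j * ι v ^ j) (q i) = 0) :
    ∀ j < 5, ∑ i, coef a b i * val b a0 a1 (fun v => ι v ^ j) (q i) = 0 := by
  have hW0 : 0 ≤ W := (by positivity : (0 : ℤ) ≤ b).trans hbW
  have hM : (0 : ℤ) ≤ W * N ^ 4 := by positivity
  refine digits_zero (B := B) 5 (fun j => ∑ i, coef a b i * val b a0 a1 (fun v => ι v ^ j) (q i))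
    ?_ ?_
  · intro j hj
    have hpow : ∀ x : ℤ, 0 ≤ x ∧ x ≤ N → 0 ≤ x ^ j ∧ x ^ j ≤ N ^ 4 := by
      rintro x ⟨hx0, hx1⟩
      refine ⟨by positivity, (pow_le_pow_left₀ hx0 hx1 j).trans (pow_le_pow_right₀ hN (by omega))⟩
    have hv : ∀ i, 0 ≤ val b a0 a1 (fun v => ι v ^ j) (q i) ∧
        val b a0 a1 (fun v => ι v ^ j) (q i) ≤ W * N ^ 4 := fun i =>
      val_bound (by positivity) h0 h1 hbW haW (by positivity) fun v hv => hpow _ (hq i v hv)
    rw [sum_coef]
    have h3 : 0 ≤ ∑ i : Fin l, (a i : ℤ) * val b a0 a1 (fun v => ι v ^ j) (q i.castSucc) :=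
      Finset.sum_nonneg fun i _ => mul_nonneg (by positivity) (hv _).1
    have h4 : ∑ i : Fin l, (a i : ℤ) * val b a0 a1 (fun v => ι v ^ j) (q i.castSucc) ≤
        (∑ i : Fin l, (a i : ℤ)) * (W * N ^ 4) := by
      rw [Finset.sum_mul]
      exact Finset.sum_le_sum fun i _ => mul_le_mul_of_nonneg_left (hv _).2 (by positivity)
    have h5 : 0 ≤ (b : ℤ) * val b a0 a1 (fun v => ι v ^ j) (q (Fin.last l)) :=
      mul_nonneg (by positivity) (hv _).1
    have h6 : (b : ℤ) * val b a0 a1 (fun v => ι v ^ j) (q (Fin.last l)) ≤ b * (W * N ^ 4) :=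
      mul_le_mul_of_nonneg_left (hv _).2 (by positivity)
    have h7 : (∑ i : Fin l, (a i : ℤ) + b) * (W * N ^ 4) ≤ W * (W * N ^ 4) :=
      mul_le_mul_of_nonneg_right hW hM
    have h8 : (0 : ℤ) ≤ (∑ i : Fin l, (a i : ℤ)) * (W * N ^ 4) :=
      mul_nonneg (Finset.sum_nonneg fun i _ => by positivity) hM
    have h9 : (0 : ℤ) ≤ b * (W * N ^ 4) := mul_nonneg (by positivity) hM
    rw [abs_lt]
    constructor <;> nlinarith
  · rw [← hs]
    simp only [val_lin, Finset.mul_sum]
    rw [Finset.sum_comm]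
    refine Finset.sum_congr rfl fun i _ => Finset.sum_congr rfl fun j _ => ?_
    ring

/-- hence all polynomials of degree at most `4` give `0` -/
theorem poly_zero {a0 a1 : ℤ} {q : Fin (l + 1) → It}
    (h : ∀ j < 5, ∑ i, coef a b i * val b a0 a1 (fun v => ι v ^ j) (q i) = 0)
    (p : ℕ → ℤ) (f : ℕ → ℤ) (hf : ∀ v, f v = ∑ j ∈ Finset.range 5, p j * ι v ^ j) :
    ∑ i, coef a b i * val b a0 a1 f (q i) = 0 := by
  have h1 : ∀ q : It, val b a0 a1 f q =
      ∑ j ∈ Finset.range 5, p j * val b a0 a1 (fun v => ι v ^ j) q := by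
    intro q
    cases q with
    | inl v =>
      simp only [val, hf, Finset.mul_sum]
      refine Finset.sum_congr rfl fun k _ => ?_
      ring
    | inr e =>
      simp only [val, hf, Finset.mul_sum, ← Finset.sum_add_distrib]
      refine Finset.sum_congr rfl fun k _ => ?_
      ring
  simp only [h1, Finset.mul_sum]
  rw [Finset.sum_comm]
  refine Finset.sum_eq_zero fun j hj => ?_
  have h2 := h j (Finset.mem_range.1 hj)
  calc ∑ i, coef a b i * (p j * val b a0 a1 (fun v => ι v ^ j) (q i))
      = p j * ∑ i, coef a b i * val b a0 a1 (fun v => ι v ^ j) (q i) := by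
        rw [Finset.mul_sum]
        exact Finset.sum_congr rfl fun i _ => by ring
    _ = 0 := by rw [h2, mul_zero]

theorem triv_of_const {m : ℕ} {c z : Fin (m + 1) → ℤ} (hz : ∀ i j, z i = z j) (hc : ∑ i, c i = 0) :
    IsTriv c z := by
  classical
  refine ⟨Finpartition.indiscrete (Finset.univ_nonempty).ne_empty, ?_⟩
  intro p hp
  rw [Finpartition.indiscrete_parts, Finset.mem_singleton] at hp
  subst hp
  exact ⟨fun i _ j _ => hz i j, hc⟩

theorem sq2 {a0 a1 : ℤ} {q : Fin (l + 1) → It}
    (h : ∀ j < 5, ∑ i, coef a b i * val b a0 a1 (fun v => ι v ^ j) (q i) = 0) (x : ℤ) :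
    ∑ i, coef a b i * val b a0 a1 (fun v => (ι v - x) ^ 2) (q i) = 0 :=
  poly_zero h (fun j => if j = 0 then x ^ 2 else if j = 1 then -2 * x else
    if j = 2 then 1 else 0) _ (fun w => by
      simp [Finset.sum_range_succ]
      ring)

theorem sq4 {a0 a1 : ℤ} {q : Fin (l + 1) → It}
    (h : ∀ j < 5, ∑ i, coef a b i * val b a0 a1 (fun v => ι v ^ j) (q i) = 0) (x y : ℤ) :
    ∑ i, coef a b i * val b a0 a1 (fun v => ((ι v - x) * (ι v - y)) ^ 2) (q i) = 0 :=
  poly_zero h (fun j => if j = 0 then x ^ 2 * y ^ 2 else if j = 1 then -2 * (x * y) * (x + y) else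
    if j = 2 then (x + y) ^ 2 + 2 * (x * y) else if j = 3 then -2 * (x + y) else 1) _ (fun w => by
      simp [Finset.sum_range_succ]
      ring)

theorem sum_coef_zero {x : Fin (l + 1) → ℤ} (ha : ∀ i, 0 < a i)
    (h : ∑ i, coef a b i * x i = 0) (hx : ∀ i, 0 ≤ x i) (hl : x (Fin.last l) = 0) : ∀ i, x i = 0 := by
  rw [sum_coef, hl, mul_zero, sub_zero, Finset.sum_eq_zero_iff_of_nonneg] at h
  · intro i
    rcases Fin.eq_castSucc_or_eq_last i with ⟨t, rfl⟩ | rfl
    · have := (mul_eq_zero.1 (h t (Finset.mem_univ _)))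
      refine this.resolve_left ?_
      have := ha t
      exact_mod_cast this.ne'
    · exact hl
  · intro i _
    exact mul_nonneg (by positivity) (hx _)

/-- The main combinatorial lemma: a solution is trivial or contains a vertex-vertex-edge triple. -/
theorem key {a0 a1 : ℤ} {q : Fin (l + 1) → It} {Vs : ℕ → Prop} (ha : ∀ i, 0 < a i) (hb : 0 < b)
    (h0 : 0 < a0) (h1 : 0 < a1)
    (h : ∀ j < 5, ∑ i, coef a b i * val b a0 a1 (fun v => ι v ^ j) (q i) = 0)
    (hq : ∀ i, ∀ v ∈ verts (q i), Vs v) (hinj : ∀ v w, Vs v → Vs w → ι v = ι w → v = w)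
    (hne : ∀ i e, q i = .inr e → e.1 ≠ e.2)
    (hor : ∀ i j e e', q i = .inr e → q j = .inr e' → e.1 = e'.2 → e.2 = e'.1 → False) :
    ((∀ i j, q i = q j) ∧ ∑ i, coef a b i = 0) ∨
      ∃ e : ℕ × ℕ, (∃ i, q i = .inr e) ∧ (∃ i, q i = .inl e.1) ∧ ∃ i, q i = .inl e.2 := by
  have hbZ : (0 : ℤ) < b := by exact_mod_cast hb
  have hval0 : ∀ f : ℕ → ℤ, (∀ v, 0 ≤ f v) → ∀ q : It, 0 ≤ val b a0 a1 f q := by
    intro f hf q
    cases q with
    | inl v => exact mul_nonneg hbZ.le (hf v)
    | inr e => exact add_nonneg (mul_nonneg h0.le (hf _)) (mul_nonneg h1.le (hf _))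
  have hzero : ∀ f : ℕ → ℤ, (∀ v, 0 ≤ f v) → ∀ q : It, val b a0 a1 f q = 0 →
      ∀ v ∈ verts q, f v = 0 := by
    intro f hf q hq v hv
    cases q with
    | inl w =>
      simp only [verts, List.mem_singleton] at hv
      subst hv
      exact (mul_eq_zero.1 hq).resolve_left hbZ.ne'
    | inr e =>
      simp only [verts, List.mem_cons, List.not_mem_nil, or_false] at hv
      simp only [val] at hq
      have h6 := mul_nonneg h0.le (hf e.1)
      have h7 := mul_nonneg h1.le (hf e.2)
      have h8 : a0 * f e.1 = 0 := by linarith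
      have h9 : a1 * f e.2 = 0 := by linarith
      rcases hv with rfl | rfl
      · exact (mul_eq_zero.1 h8).resolve_left h0.ne'
      · exact (mul_eq_zero.1 h9).resolve_left h1.ne'
  cases hy : q (Fin.last l) with
  | inl v =>
    left
    have hv : Vs v := hq (Fin.last l) v (by rw [hy]; simp [verts])
    have hP := sum_coef_zero ha (sq2 h (ι v)) (fun i => hval0 _ (fun v => sq_nonneg _) _)
      (by rw [hy]; simp [val])
    have hall : ∀ i, ∀ w ∈ verts (q i), w = v := fun i w hw => by
      have h3 := hzero _ (fun v => sq_nonneg _) _ (hP i) w hw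
      have h4 : ι w - ι v = 0 := by simpa using h3
      exact hinj w v (hq i w hw) hv (by linarith)
    have hall' : ∀ i, q i = .inl v := by
      intro i
      cases hqi : q i with
      | inl w => rw [hall i w (by rw [hqi]; simp [verts])]
      | inr e =>
        exfalso
        refine hne i e hqi ?_
        rw [hall i e.1 (by rw [hqi]; simp [verts]), hall i e.2 (by rw [hqi]; simp [verts])]
    refine ⟨fun i j => (hall' i).trans (hall' j).symm, ?_⟩
    have h12 := h 0 (by omega)
    simp only [pow_zero] at h12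
    have h13 : ∀ i, coef a b i * val b a0 a1 (fun _ => (1 : ℤ)) (q i) = coef a b i * b := by
      intro i
      rw [hall' i]
      simp [val]
    rw [Finset.sum_congr rfl fun i _ => h13 i, ← Finset.sum_mul] at h12
    exact (mul_eq_zero.1 h12).resolve_right hbZ.ne'
  | inr e =>
    have he1 : Vs e.1 := hq (Fin.last l) e.1 (by rw [hy]; simp [verts])
    have he2 : Vs e.2 := hq (Fin.last l) e.2 (by rw [hy]; simp [verts])
    have hne' := hne _ e hy
    have hP := sum_coef_zero ha (sq4 h (ι e.1) (ι e.2)) (fun i => hval0 _ (fun v => sq_nonneg _) _)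
      (by rw [hy]; simp [val])
    have hall : ∀ i, ∀ w ∈ verts (q i), w = e.1 ∨ w = e.2 := fun i w hw => by
      have h3 := hzero _ (fun v => sq_nonneg _) _ (hP i) w hw
      have h4 : (ι w - ι e.1) * (ι w - ι e.2) = 0 := by
        simpa using h3
      rcases mul_eq_zero.1 h4 with h5 | h5
      · exact Or.inl (hinj w e.1 (hq i w hw) he1 (by linarith))
      · exact Or.inr (hinj w e.2 (hq i w hw) he2 (by linarith))
    have hall' : ∀ i, q i = .inl e.1 ∨ q i = .inl e.2 ∨ q i = .inr e := by
      intro i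
      cases hqi : q i with
      | inl w =>
        rcases hall i w (by rw [hqi]; simp [verts]) with rfl | rfl
        · exact Or.inl rfl
        · exact Or.inr (Or.inl rfl)
      | inr e' =>
        right; right
        have h3 := hall i e'.1 (by rw [hqi]; simp [verts])
        have h4 := hall i e'.2 (by rw [hqi]; simp [verts])
        have h5 := hne i e' hqi
        rcases h3 with h3 | h3 <;> rcases h4 with h4 | h4
        · exact absurd (h3.trans h4.symm) h5
        · rw [Prod.ext h3 h4]
        · exact (hor i (Fin.last l) e' e hqi hy h3 h4).elim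
        · exact absurd (h3.trans h4.symm) h5
    have hD : 0 < (ι e.2 - ι e.1) ^ 2 := by
      have : ι e.2 - ι e.1 ≠ 0 := fun h => hne' (hinj _ _ he1 he2 (by linarith))
      positivity
    have s1 := sq2 h (ι e.1)
    have s2 := sq2 h (ι e.2)
    have e1 : ι e.1 - ι e.1 = 0 := sub_self _
    have e2 : ι e.2 - ι e.2 = 0 := sub_self _
    have hD' : (ι e.1 - ι e.2) ^ 2 = (ι e.2 - ι e.1) ^ 2 := by ring
    have hfin : (∀ i, q i = .inr e) → ((∀ i j, q i = q j) ∧ ∑ i, coef a b i = 0) := by
      intro hh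
      refine ⟨fun i j => (hh i).trans (hh j).symm, ?_⟩
      have h13 : ∀ i, coef a b i * val b a0 a1 (fun v => (ι v - ι e.1) ^ 2) (q i) =
          coef a b i * (a1 * (ι e.2 - ι e.1) ^ 2) := by
        intro i
        rw [hh i]
        simp only [val, e1]
        ring
      rw [Finset.sum_congr rfl fun i _ => h13 i, ← Finset.sum_mul] at s1
      exact (mul_eq_zero.1 s1).resolve_right (by positivity)
    by_cases hA : ∃ i, q i = .inl e.1
    · by_cases hB : ∃ i, q i = .inl e.2
      · exact Or.inr ⟨e, ⟨_, hy⟩, hA, hB⟩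
      · exfalso
        push Not at hB
        obtain ⟨i, hi⟩ := hA
        have s3 : ∑ i, coef a b i * (a1 * val b a0 a1 (fun v => (ι v - ι e.2) ^ 2) (q i) -
            a0 * val b a0 a1 (fun v => (ι v - ι e.1) ^ 2) (q i)) = 0 := by
          have : ∑ i, coef a b i * (a1 * val b a0 a1 (fun v => (ι v - ι e.2) ^ 2) (q i) -
            a0 * val b a0 a1 (fun v => (ι v - ι e.1) ^ 2) (q i)) =
            a1 * ∑ i, coef a b i * val b a0 a1 (fun v => (ι v - ι e.2) ^ 2) (q i) -
            a0 * ∑ i, coef a b i * val b a0 a1 (fun v => (ι v - ι e.1) ^ 2) (q i) := by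
            rw [Finset.mul_sum, Finset.mul_sum, ← Finset.sum_sub_distrib]
            exact Finset.sum_congr rfl fun i _ => by ring
          rw [this, s1, s2]
          ring
        have hv : ∀ i, (q i = .inl e.1 ∧ (a1 * val b a0 a1 (fun v => (ι v - ι e.2) ^ 2) (q i) -
            a0 * val b a0 a1 (fun v => (ι v - ι e.1) ^ 2) (q i)) = a1 * (b * (ι e.2 - ι e.1) ^ 2)) ∨
            (q i = .inr e ∧ (a1 * val b a0 a1 (fun v => (ι v - ι e.2) ^ 2) (q i) -
            a0 * val b a0 a1 (fun v => (ι v - ι e.1) ^ 2) (q i)) = 0) := by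
          intro i
          rcases hall' i with hh | hh | hh
          · left
            refine ⟨hh, ?_⟩
            rw [hh]
            simp only [val, e1, hD']
            ring
          · exact absurd hh (hB i)
          · right
            refine ⟨hh, ?_⟩
            rw [hh]
            simp only [val, e1, e2, hD']
            ring
        have s4 := sum_coef_zero ha s3 (fun i => by
          rcases hv i with hh | hh
          · rw [hh.2]; positivity
          · rw [hh.2]) (by
          rcases hv (Fin.last l) with hh | hh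
          · rw [hy] at hh; exact absurd hh.1 (by simp)
          · exact hh.2) i
        rcases hv i with hh | hh
        · rw [hh.2] at s4
          have : 0 < a1 * (b * (ι e.2 - ι e.1) ^ 2) := by positivity
          omega
        · rw [hi] at hh
          exact absurd hh.1 (by simp)
    · push Not at hA
      left
      apply hfin
      have s3 : ∑ i, coef a b i * (a0 * val b a0 a1 (fun v => (ι v - ι e.1) ^ 2) (q i) -
          a1 * val b a0 a1 (fun v => (ι v - ι e.2) ^ 2) (q i)) = 0 := by
        have : ∑ i, coef a b i * (a0 * val b a0 a1 (fun v => (ι v - ι e.1) ^ 2) (q i) -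
          a1 * val b a0 a1 (fun v => (ι v - ι e.2) ^ 2) (q i)) =
          a0 * ∑ i, coef a b i * val b a0 a1 (fun v => (ι v - ι e.1) ^ 2) (q i) -
          a1 * ∑ i, coef a b i * val b a0 a1 (fun v => (ι v - ι e.2) ^ 2) (q i) := by
          rw [Finset.mul_sum, Finset.mul_sum, ← Finset.sum_sub_distrib]
          exact Finset.sum_congr rfl fun i _ => by ring
        rw [this, s1, s2]
        ring
      have hv : ∀ i, (q i = .inl e.2 ∧ (a0 * val b a0 a1 (fun v => (ι v - ι e.1) ^ 2) (q i) -
          a1 * val b a0 a1 (fun v => (ι v - ι e.2) ^ 2) (q i)) = a0 * (b * (ι e.2 - ι e.1) ^ 2)) ∨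
          (q i = .inr e ∧ (a0 * val b a0 a1 (fun v => (ι v - ι e.1) ^ 2) (q i) -
          a1 * val b a0 a1 (fun v => (ι v - ι e.2) ^ 2) (q i)) = 0) := by
        intro i
        rcases hall' i with hh | hh | hh
        · exact absurd hh (hA i)
        · left
          refine ⟨hh, ?_⟩
          rw [hh]
          simp only [val, e2]
          ring
        · right
          refine ⟨hh, ?_⟩
          rw [hh]
          simp only [val, e1, e2, hD']
          ring
      have s4 := sum_coef_zero ha s3 (fun i => by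
        rcases hv i with hh | hh
        · rw [hh.2]; positivity
        · rw [hh.2]) (by
        rcases hv (Fin.last l) with hh | hh
        · rw [hy] at hh; exact absurd hh.1 (by simp)
        · exact hh.2)
      intro i
      rcases hv i with hh | hh
      · exfalso
        have s5 := s4 i
        rw [hh.2] at s5
        have : 0 < a0 * (b * (ι e.2 - ι e.1) ^ 2) := by positivity
        omega
      · exact hh.1
end

end Pool.Agent.X130.LF
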