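import Mathlib
import Pool.Agent.X130.LF.Defs
import Pool.Agent.X130.Util
import Pool.Agent.H687R2.IntPoly

set_option autoImplicit false

/-!
# Solution-free subsets: membership in NP
-/

namespace Pool.Agent.X130.LF

open Pool.Agent.NPC

/-! ### Triviality -/

theorem isTriv_iff {m : ℕ} (c z : Fin m → ℤ) :
    IsTriv c z ↔ ∀ j, ∑ i, (if z i = z j then c i else 0) = 0 := by
  classical
  constructor
  · rintro ⟨P, hP⟩ j
    have h1 : ∑ i, (if z i = z j then c i else 0) =
        ∑ p ∈ P.parts, ∑ i ∈ p, (if z i = z j then c i else 0) := by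
      conv_lhs => rw [← P.biUnion_parts]
      rw [Finset.sum_biUnion]
      · rfl
      · exact P.disjoint
    rw [h1]
    refine Finset.sum_eq_zero fun p hp => ?_
    obtain ⟨h2, h3⟩ := hP p hp
    by_cases h4 : ∃ i ∈ p, z i = z j
    · obtain ⟨i, hi, h5⟩ := h4
      rw [← h3]
      refine Finset.sum_congr rfl fun k hk => ?_
      rw [if_pos ((h2 k hk i hi).trans h5)]
    · push Not at h4
      exact Finset.sum_eq_zero fun k hk => if_neg (h4 k hk)
  · intro h
    refine ⟨Finpartition.ofSetoid (Setoid.ker z), ?_⟩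
    intro p hp
    have h1 : p ∈ (Finpartition.ofSetoid (Setoid.ker z)).parts := hp
    obtain ⟨j, hj⟩ := (Finpartition.ofSetoid (Setoid.ker z)).nonempty_of_mem_parts hp
    have h2 : (Finpartition.ofSetoid (Setoid.ker z)).part j = p :=
      (Finpartition.ofSetoid (Setoid.ker z)).part_eq_of_mem hp hj
    have h3 : ∀ i, i ∈ p ↔ z j = z i := by
      intro i
      rw [← h2, Finpartition.mem_part_ofSetoid_iff_rel]
      rfl
    refine ⟨fun i hi k hk => ((h3 i).1 hi).symm.trans ((h3 k).1 hk), ?_⟩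
    rw [← h j, ← Finset.sum_filter]
    refine Finset.sum_congr ?_ fun _ _ => rfl
    ext i
    rw [h3 i, Finset.mem_filter]
    exact ⟨fun hh => ⟨Finset.mem_univ _, hh.symm⟩, fun hh => hh.2.symm⟩

/-! ### Polynomial time -/

variable {α : Type} [TEnc α]

attribute [local fun_prop] Poly.iadd Poly.imul Poly.natAbs

theorem poly_sum_fin {m : ℕ} {F : Fin m → α → ℤ} (h : ∀ i, NPC.Poly (F i)) :
    NPC.Poly (fun a => ∑ i, F i a) := by
  classical
  have : ∀ s : Finset (Fin m), NPC.Poly (fun a => ∑ i ∈ s, F i a) := by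
    intro s
    induction s using Finset.induction_on with
    | empty => simpa using NPC.Poly.const (0 : ℤ)
    | insert i s hi ih =>
      refine (NPC.Poly.iadd (h i) ih).congr fun a => ?_
      rw [Finset.sum_insert hi]
  exact this _

theorem pp_forall_fin {m : ℕ} {P : Fin m → α → Prop} (h : ∀ i, PP (P i)) :
    PP (fun a => ∀ i, P i a) := by
  classical
  have : ∀ s : Finset (Fin m), PP (fun a => ∀ i ∈ s, P i a) := by
    intro s
    induction s using Finset.induction_on with
    | empty => exact ⟨fun _ => true, NPC.Poly.const _, fun a => by simp⟩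
    | insert i s hi ih =>
      refine (PP.and (h i) ih).congr fun a => ?_
      rw [Finset.forall_mem_insert]
  exact (this Finset.univ).congr fun a => by simp

/-- all tuples of length `m` -/
def tup (S : List ℤ) : ℕ → List (List ℤ)
  | 0 => [[]]
  | m + 1 => S.flatMap (fun x => (tup S m).map (fun t => x :: t))

theorem mem_tup {S : List ℤ} : ∀ {m : ℕ} {t : List ℤ}, t ∈ tup S m ↔ t.length = m ∧ ∀ x ∈ t, x ∈ S
  | 0, t => by
    simp only [tup, List.mem_singleton, List.length_eq_zero_iff]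
    constructor
    · rintro rfl; simp
    · exact fun h => h.1
  | m + 1, t => by
    simp only [tup, List.mem_flatMap, List.mem_map]
    constructor
    · rintro ⟨x, hx, u, hu, rfl⟩
      have := mem_tup.1 hu
      exact ⟨by simp [this.1], by
        intro y hy
        rcases List.mem_cons.1 hy with rfl | hy
        · exact hx
        · exact this.2 y hy⟩
    · rintro ⟨h1, h2⟩
      cases t with
      | nil => simp at h1
      | cons x u =>
        exact ⟨x, h2 x (by simp), u, mem_tup.2 ⟨by simpa using h1, fun y hy =>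
          h2 y (List.mem_cons_of_mem _ hy)⟩, rfl⟩

theorem tup_poly {S : α → List ℤ} (hS : NPC.Poly S) : ∀ m, NPC.Poly (fun a => tup (S a) m)
  | 0 => NPC.Poly.const _
  | m + 1 => by
    have ih := tup_poly hS m
    simp only [tup]
    refine NPC.Poly.flatMap (F := fun a x => (tup (S a) m).map (fun t => x :: t)) hS ?_
    refine NPC.Poly.map (F := fun (p : α × ℤ) t => p.2 :: t) (ih.comp (NPC.Poly.fst NPC.Poly.id)) ?_
    fun_prop

theorem pp_tuples {m : ℕ} {S : α → List ℤ} (hS : NPC.Poly S) {Q : α → (Fin m → ℤ) → Prop}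
    (hQ : PP (fun x : α × List ℤ => Q x.1 (fun i => x.2.getD i 0))) :
    PP (fun a => ∀ z : Fin m → ℤ, (∀ i, z i ∈ S a) → Q a z) := by
  refine (PP.ball (r := fun a t => Q a (fun i => t.getD i 0)) (tup_poly hS m) hQ).congr fun a => ?_
  constructor
  · intro h z hz
    have h1 := h (List.ofFn z) (mem_tup.2 ⟨List.length_ofFn, fun x hx => by
      obtain ⟨i, rfl⟩ := (List.mem_ofFn' _ _).1 hx
      exact hz i⟩)
    have h2 : (fun i : Fin m => (List.ofFn z).getD (i : ℕ) 0) = z := by
      funext i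
      rw [List.getD_eq_getElem?_getD, List.getElem?_ofFn]
      simp
    rwa [h2] at h1
  · intro h t ht
    obtain ⟨h1, h2⟩ := mem_tup.1 ht
    refine h _ fun i => ?_
    have h3 : (i : ℕ) < t.length := by rw [h1]; exact i.2
    rw [List.getD_eq_getElem?_getD, List.getElem?_eq_getElem h3]
    exact h2 _ (List.getElem_mem h3)

theorem pp_free {m : ℕ} (c : Fin m → ℤ) {S : α → List ℤ} (hS : NPC.Poly S) :
    PP (fun a => ∀ z : Fin m → ℤ, (∀ i, z i ∈ S a) → (∑ i, c i * z i = 0 →
      ∀ j, ∑ i, (if z i = z j then c i else 0) = 0)) := by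
  refine pp_tuples hS (Q := fun _ z => ∑ i, c i * z i = 0 →
      ∀ j, ∑ i, (if z i = z j then c i else 0) = 0) ?_
  refine pp_imp (PP.eq (poly_sum_fin fun i => ?_) (NPC.Poly.const 0))
    (pp_forall_fin fun j => PP.eq (poly_sum_fin fun i => ?_) (NPC.Poly.const 0))
  · fun_prop
  · exact PP.ite (PP.eq (by fun_prop) (by fun_prop)) (NPC.Poly.const _) (NPC.Poly.const _)

/-- the certificates -/
def Cert {m : ℕ} (c : Fin m → ℤ) (I : List ℤ × ℕ) (w : List ℤ) : Prop :=
  I.1.Nodup ∧ w.Nodup ∧ (∀ x ∈ w, x ∈ I.1) ∧ I.2 ≤ w.length ∧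
    ∀ z : Fin m → ℤ, (∀ i, z i ∈ w) → (∑ i, c i * z i = 0 →
      ∀ j, ∑ i, (if z i = z j then c i else 0) = 0)

theorem free_iff {m : ℕ} (c : Fin m → ℤ) (I : List ℤ × ℕ) : FreeSubset c I ↔ ∃ w, Cert c I w := by
  classical
  constructor
  · rintro ⟨h1, S, h2, h3, h4⟩
    refine ⟨S.toList, h1, S.nodup_toList, fun x hx => h2 x (Finset.mem_toList.1 hx), ?_, ?_⟩
    · rwa [Finset.length_toList]
    · intro z hz hs
      exact (isTriv_iff c z).1 (h4 z (fun i => Finset.mem_toList.1 (hz i)) hs)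
  · rintro ⟨w, h1, h2, h3, h4, h5⟩
    refine ⟨h1, w.toFinset, fun x hx => h3 x (List.mem_toFinset.1 hx), ?_, ?_⟩
    · rwa [List.toFinset_card_of_nodup h2]
    · intro z hz hs
      exact (isTriv_iff c z).2 (h5 z (fun i => List.mem_toFinset.1 (hz i)) hs)

theorem cert_pp {m : ℕ} (c : Fin m → ℤ) :
    PP (fun x : (List ℤ × ℕ) × List ℤ => Cert c x.1 x.2) := by
  unfold Cert
  refine PP.and (Y592.OP.pp_nodup (by fun_prop)) (PP.and (Y592.OP.pp_nodup (by fun_prop))
    (PP.and (PP.ball (by fun_prop) (PP.mem (by fun_prop) (by fun_prop)))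
      (PP.and (PP.le (by fun_prop) (by fun_prop)) (pp_free c (by fun_prop)))))

theorem poly_eval {f : α → ℕ} (hf : NPC.Poly f) (p : Polynomial ℕ) :
    NPC.Poly (fun a => p.eval (f a)) := by
  have hpow : ∀ n : ℕ, NPC.Poly (fun a => f a ^ n) := by
    intro n
    induction n with
    | zero => simpa using NPC.Poly.const (1 : ℕ)
    | succ n ih => exact (NPC.Poly.mul ih hf).congr fun a => by rw [pow_succ]
  induction p using Polynomial.induction_on' with
  | add p q hp hq => exact (NPC.Poly.add hp hq).congr fun a => by rw [Polynomial.eval_add]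
  | monomial n c =>
    exact (NPC.Poly.mul (NPC.Poly.const c) (hpow n)).congr fun a => by
      rw [Polynomial.eval_monomial]

theorem pp_bdd (p : Polynomial ℕ) :
    PP (fun I : List ℤ × ℕ => ∀ x ∈ I.1, x.natAbs ≤ p.eval I.1.length) := by
  refine PP.ball (by fun_prop) (PP.le (by fun_prop) (poly_eval ?_ p))
  fun_prop

theorem cert_short {m : ℕ} {c : Fin m → ℤ} {I : List ℤ × ℕ} {w : List ℤ} (h : Cert c I w) :
    sz w ≤ (Polynomial.X * (Polynomial.X + 1) + 1 : Polynomial ℕ).eval (sz I) := by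
  obtain ⟨A, k⟩ := I
  simp only [Polynomial.eval_add, Polynomial.eval_mul, Polynomial.eval_X, Polynomial.eval_one]
  refine sz_sub h.2.1 h.2.2.1 ?_
  rw [sz_pair]
  simp only
  omega

theorem in_np {m : ℕ} (c : Fin m → ℤ) : InNPP (FreeSubset c) := by
  obtain ⟨b, hb, hb'⟩ := cert_pp c
  refine inNPP_of (β := List ℤ) hb (Polynomial.X * (Polynomial.X + 1) + 1 : Polynomial ℕ)
    (fun I => ?_)
  rw [free_iff]
  exact exists_congr fun w => ⟨fun h => ⟨cert_short h, (hb' (I, w)).2 h⟩, fun h => (hb' (I, w)).1 h.2⟩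

theorem in_np_bdd {m : ℕ} (c : Fin m → ℤ) (p : Polynomial ℕ) : InNPP (FreeSubsetBdd c p) := by
  have h1 : PP (fun x : (List ℤ × ℕ) × List ℤ =>
      (∀ y ∈ x.1.1, y.natAbs ≤ p.eval x.1.1.length) ∧ Cert c x.1 x.2) :=
    PP.and ((pp_bdd p).comp (f := fun x : (List ℤ × ℕ) × List ℤ => x.1) (by fun_prop)) (cert_pp c)
  obtain ⟨b, hb, hb'⟩ := h1
  refine inNPP_of (β := List ℤ) hb (Polynomial.X * (Polynomial.X + 1) + 1 : Polynomial ℕ)
    (fun I => ?_)
  unfold FreeSubsetBdd
  rw [free_iff]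
  constructor
  · rintro ⟨h1, w, h⟩
    exact ⟨w, cert_short h, (hb' (I, w)).2 ⟨h1, h⟩⟩
  · rintro ⟨w, -, h⟩
    have := (hb' (I, w)).1 h
    exact ⟨this.1, w, this.2⟩

end Pool.Agent.X130.LF
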