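import Mathlib
import Pool.Agent.X130.LF.Key
import Pool.Agent.X130.LF.Mem
import Pool.Agent.X130.VC

set_option autoImplicit false

/-!
# Solution-free subsets: the reduction from vertex cover
-/

namespace Pool.Agent.X130.LF

open Pool.Agent.NPC Pool.Agent.NPC.H634R2

/-- the base -/
def bb (W n : ℕ) : ℕ := W * (W * ((n + 1) * (n + 1) * (n + 1) * (n + 1))) + 1

/-- `1 + x + x² + x³ + x⁴` -/
def geo (x : ℕ) : ℕ := 1 + x * (1 + x * (1 + x * (1 + x)))

theorem geo_eq (B i : ℕ) :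
    ((geo (i * B) : ℕ) : ℤ) = ∑ j ∈ Finset.range 5, (B : ℤ) ^ j * (i : ℤ) ^ j := by
  unfold geo
  push_cast
  simp only [Finset.sum_range_succ, Finset.sum_range_zero]
  ring

theorem geo_le (x : ℕ) : geo x ≤ (1 + x) ^ 4 := by
  unfold geo
  nlinarith [Nat.zero_le x, Nat.zero_le (x ^ 2), Nat.zero_le (x ^ 3), Nat.zero_le (x ^ 4)]

/-- the number of an item -/
noncomputable def num (b a0 a1 B : ℕ) (V : List ℕ) (q : It) : ℕ :=
  Sum.elim (fun v => b * geo (index V v * B))
    (fun e => a0 * geo (index V e.1 * B) + a1 * geo (index V e.2 * B)) q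

/-- the items -/
def items (V : List ℕ) (E : List (ℕ × ℕ)) : List It := V.map Sum.inl ++ E.map Sum.inr

/-- the set of integers -/
noncomputable def setA (b a0 a1 : ℕ) (V : List ℕ) (E : List (ℕ × ℕ)) : List ℤ :=
  (items V E).map (fun q => ((num b a0 a1 (bb (a0 + a1 + b) V.length) V q : ℕ) : ℤ))

/-- the reduction -/
noncomputable def red (b a0 a1 : ℕ) (I : (List ℕ × List (ℕ × ℕ)) × ℕ) : List ℤ × ℕ :=
  (setA b a0 a1 I.1.1 I.1.2, I.1.1.length + I.1.2.length - I.2)

theorem red_poly (b a0 a1 : ℕ) : NPC.Poly (red b a0 a1) := by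
  have h1 : ∀ {α : Type} [TEnc α] {l : α → List ℕ} {v : α → ℕ}, NPC.Poly l → NPC.Poly v →
      NPC.Poly (fun a => index (l a) (v a)) := fun hl hv => NPC.Poly.index hl hv
  unfold red setA items num geo bb
  fun_prop

theorem num_eq {b a0 a1 B : ℕ} {V : List ℕ} (q : It) :
    ((num b a0 a1 B V q : ℕ) : ℤ) =
      val b a0 a1 (fun v => ∑ j ∈ Finset.range 5, (B : ℤ) ^ j * ((index V v : ℕ) : ℤ) ^ j) q := by
  cases q with
  | inl v => simp only [num, val, Sum.elim_inl, Nat.cast_mul, geo_eq]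
  | inr e => simp only [num, val, Sum.elim_inr, Nat.cast_mul, Nat.cast_add, geo_eq]

theorem mem_items {V : List ℕ} {E : List (ℕ × ℕ)} {q : It} :
    q ∈ items V E ↔ (∃ v ∈ V, q = .inl v) ∨ ∃ e ∈ E, q = .inr e := by
  unfold items
  simp only [List.mem_append, List.mem_map]
  constructor
  · rintro (⟨v, hv, rfl⟩ | ⟨e, he, rfl⟩)
    · exact Or.inl ⟨v, hv, rfl⟩
    · exact Or.inr ⟨e, he, rfl⟩
  · rintro (⟨v, hv, rfl⟩ | ⟨e, he, rfl⟩)
    · exact Or.inl ⟨v, hv, rfl⟩
    · exact Or.inr ⟨e, he, rfl⟩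

section
variable {V : List ℕ} {E : List (ℕ × ℕ)}

theorem edge_nodup (hG : IsGraph V E) : E.Nodup := List.Nodup.of_map _ hG.2.2

theorem items_nodup (hG : IsGraph V E) : (items V E).Nodup := by
  unfold items
  rw [List.nodup_append']
  refine ⟨hG.1.map Sum.inl_injective, (edge_nodup hG).map Sum.inr_injective, ?_⟩
  intro x hx hx'
  obtain ⟨v, _, rfl⟩ := List.mem_map.1 hx
  obtain ⟨e, _, h⟩ := List.mem_map.1 hx'
  exact absurd h (by simp)

theorem no_rev (hG : IsGraph V E) {e e' : ℕ × ℕ} (he : e ∈ E) (he' : e' ∈ E) (h1 : e.1 = e'.2)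
    (h2 : e.2 = e'.1) : False := by
  have h3 : s(e.1, e.2) = s(e'.1, e'.2) := by rw [h1, h2, Sym2.eq_swap]
  have h4 : e = e' := List.inj_on_of_nodup_map hG.2.2 he he' h3
  subst h4
  exact (hG.2.1 _ he).2.2 h1

theorem verts_mem (hG : IsGraph V E) {q : It} (hq : q ∈ items V E) : ∀ v ∈ verts q, v ∈ V := by
  rcases mem_items.1 hq with ⟨v, hv, rfl⟩ | ⟨e, he, rfl⟩
  · intro w hw
    simp only [verts, List.mem_singleton] at hw
    exact hw ▸ hv
  · intro w hw
    simp only [verts, List.mem_cons, List.not_mem_nil, or_false] at hw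
    rcases hw with rfl | rfl
    · exact (hG.2.1 _ he).1
    · exact (hG.2.1 _ he).2.1

theorem index_lt {v : ℕ} (hv : v ∈ V) : index V v < V.length :=
  (List.getElem?_eq_some_iff.1 (getElem?_index hv)).1

theorem cast_index_inj {v w : ℕ} (hv : v ∈ V) (hw : w ∈ V)
    (h : ((index V v : ℕ) : ℤ) = ((index V w : ℕ) : ℤ)) : v = w :=
  index_inj hv hw (by exact_mod_cast h)

theorem val_eq_sum (b a0 a1 : ℤ) (ι : ℕ → ℤ) (p : ℕ → ℤ) (f : ℕ → ℤ)
    (hf : ∀ v, f v = ∑ j ∈ Finset.range 5, p j * ι v ^ j) (q : It) :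
    val b a0 a1 f q = ∑ j ∈ Finset.range 5, p j * val b a0 a1 (fun v => ι v ^ j) q := by
  cases q with
  | inl v =>
    simp only [val, hf, Finset.mul_sum]
    refine Finset.sum_congr rfl fun k _ => ?_
    ring
  | inr e =>
    simp only [val, hf, Finset.mul_sum, ← Finset.sum_add_distrib]
    refine Finset.sum_congr rfl fun k _ => ?_
    ring

theorem pow_bd {N x : ℤ} (hN : 1 ≤ N) {j : ℕ} (hj : j < 5) (hx0 : 0 ≤ x) (hx1 : x ≤ N) :
    0 ≤ x ^ j ∧ x ^ j ≤ N ^ 4 :=
  ⟨by positivity, (pow_le_pow_left₀ hx0 hx1 j).trans (pow_le_pow_right₀ hN (by omega))⟩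

theorem num_inj (hG : IsGraph V E) {b a0 a1 : ℕ} (hb : 0 < b) (h0 : 0 < a0) (h1 : 0 < a1)
    {q q' : It} (hq : q ∈ items V E) (hq' : q' ∈ items V E)
    (h : num b a0 a1 (bb (a0 + a1 + b) V.length) V q =
      num b a0 a1 (bb (a0 + a1 + b) V.length) V q') : q = q' := by
  set B := bb (a0 + a1 + b) V.length with hB
  set ι : ℕ → ℤ := fun v => ((index V v : ℕ) : ℤ) with hι
  set N : ℤ := (V.length : ℤ) + 1 with hN
  have hN1 : 1 ≤ N := by omega
  have hbnd : ∀ v ∈ V, 0 ≤ ι v ∧ ι v ≤ N := fun v hv => by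
    have := index_lt hv
    simp only [hι]
    omega
  have hb' : (0 : ℤ) < b := by exact_mod_cast hb
  have h0' : (0 : ℤ) < a0 := by exact_mod_cast h0
  have h1' : (0 : ℤ) < a1 := by exact_mod_cast h1
  set W : ℤ := a0 + a1 + b with hW
  have hBW : W * N ^ 4 < B := by
    have h2 : (B : ℤ) = W * (W * N ^ 4) + 1 := by
      rw [hB, hW, hN]
      unfold bb
      push_cast
      ring
    have h3 : 0 ≤ W * N ^ 4 := by positivity
    have h4 : 1 ≤ W := by omega
    nlinarith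
  have hmom : ∀ j < 5, val b a0 a1 (fun v => ι v ^ j) q - val b a0 a1 (fun v => ι v ^ j) q' = 0 := by
    refine digits_zero (B := B) 5 (fun j => val b a0 a1 (fun v => ι v ^ j) q -
      val b a0 a1 (fun v => ι v ^ j) q') ?_ ?_
    · intro j hj
      have h2 := val_bound (b := b) (a0 := a0) (a1 := a1) (W := W) (M := N ^ 4)
        (f := fun v => ι v ^ j) hb'.le h0'.le h1'.le (by omega) (by omega) (by positivity)
        (q := q) fun v hv => pow_bd hN1 hj (hbnd v (verts_mem hG hq v hv)).1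
          (hbnd v (verts_mem hG hq v hv)).2
      have h3 := val_bound (b := b) (a0 := a0) (a1 := a1) (W := W) (M := N ^ 4)
        (f := fun v => ι v ^ j) hb'.le h0'.le h1'.le (by omega) (by omega) (by positivity)
        (q := q') fun v hv => pow_bd hN1 hj (hbnd v (verts_mem hG hq' v hv)).1
          (hbnd v (verts_mem hG hq' v hv)).2
      rw [abs_lt]
      constructor <;> linarith
    · have h2 : ((num b a0 a1 B V q : ℕ) : ℤ) = ((num b a0 a1 B V q' : ℕ) : ℤ) := by rw [h]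
      rw [num_eq, num_eq, val_lin, val_lin] at h2
      simp only [mul_sub, Finset.sum_sub_distrib]
      exact sub_eq_zero.2 h2
  have hsq : ∀ x : ℤ, val b a0 a1 (fun v => (ι v - x) ^ 2) q =
      val b a0 a1 (fun v => (ι v - x) ^ 2) q' := by
    intro x
    have h2 := val_eq_sum b a0 a1 ι (fun j => if j = 0 then x ^ 2 else if j = 1 then -2 * x else
      if j = 2 then 1 else 0) (fun v => (ι v - x) ^ 2) (fun w => by
      simp [Finset.sum_range_succ]
      ring)
    rw [h2, h2]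
    refine Finset.sum_congr rfl fun j hj => ?_
    rw [sub_eq_zero.1 (hmom j (Finset.mem_range.1 hj))]
  have hsq4 : ∀ x y : ℤ, val b a0 a1 (fun v => ((ι v - x) * (ι v - y)) ^ 2) q =
      val b a0 a1 (fun v => ((ι v - x) * (ι v - y)) ^ 2) q' := by
    intro x y
    have h2 := val_eq_sum b a0 a1 ι (fun j => if j = 0 then x ^ 2 * y ^ 2 else
      if j = 1 then -2 * (x * y) * (x + y) else
      if j = 2 then (x + y) ^ 2 + 2 * (x * y) else if j = 3 then -2 * (x + y) else 1)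
      (fun v => ((ι v - x) * (ι v - y)) ^ 2) (fun w => by
      simp [Finset.sum_range_succ]
      ring)
    rw [h2, h2]
    refine Finset.sum_congr rfl fun j hj => ?_
    rw [sub_eq_zero.1 (hmom j (Finset.mem_range.1 hj))]
  clear hmom
  rcases mem_items.1 hq with ⟨v, hv, rfl⟩ | ⟨e, he, rfl⟩ <;>
    rcases mem_items.1 hq' with ⟨v', hv', rfl⟩ | ⟨e', he', rfl⟩
  · have h2 := hsq (ι v)
    simp only [val, sub_self] at h2
    have h3 : (b : ℤ) * (ι v' - ι v) ^ 2 = 0 := by rw [← h2]; ring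
    have h4 : ι v' - ι v = 0 := by simpa using (mul_eq_zero.1 h3).resolve_left hb'.ne'
    rw [cast_index_inj hv hv' (by simp only [hι] at h4; omega)]
  · exfalso
    have h2 := hsq (ι v)
    simp only [val, sub_self] at h2
    have hne := hG.2.1 _ he'
    have h6 : 0 ≤ (a0 : ℤ) * (ι e'.1 - ι v) ^ 2 := by positivity
    have h7 : 0 ≤ (a1 : ℤ) * (ι e'.2 - ι v) ^ 2 := by positivity
    have h8 : (a0 : ℤ) * (ι e'.1 - ι v) ^ 2 = 0 := by linarith
    have h9 : (a1 : ℤ) * (ι e'.2 - ι v) ^ 2 = 0 := by linarith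
    have h10 : ι e'.1 - ι v = 0 := by simpa using (mul_eq_zero.1 h8).resolve_left h0'.ne'
    have h11 : ι e'.2 - ι v = 0 := by simpa using (mul_eq_zero.1 h9).resolve_left h1'.ne'
    exact hne.2.2 (cast_index_inj hne.1 hne.2.1 (by simp only [hι] at h10 h11; omega))
  · exfalso
    have h2 := hsq (ι v')
    simp only [val, sub_self] at h2
    have hne := hG.2.1 _ he
    have h6 : 0 ≤ (a0 : ℤ) * (ι e.1 - ι v') ^ 2 := by positivity
    have h7 : 0 ≤ (a1 : ℤ) * (ι e.2 - ι v') ^ 2 := by positivity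
    have h8 : (a0 : ℤ) * (ι e.1 - ι v') ^ 2 = 0 := by linarith
    have h9 : (a1 : ℤ) * (ι e.2 - ι v') ^ 2 = 0 := by linarith
    have h10 : ι e.1 - ι v' = 0 := by simpa using (mul_eq_zero.1 h8).resolve_left h0'.ne'
    have h11 : ι e.2 - ι v' = 0 := by simpa using (mul_eq_zero.1 h9).resolve_left h1'.ne'
    exact hne.2.2 (cast_index_inj hne.1 hne.2.1 (by simp only [hι] at h10 h11; omega))
  · have h2 := hsq4 (ι e.1) (ι e.2)
    simp only [val, sub_self, zero_mul, mul_zero] at h2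
    have hG1 := hG.2.1 _ he
    have hG2 := hG.2.1 _ he'
    have h6 : 0 ≤ (a0 : ℤ) * ((ι e'.1 - ι e.1) * (ι e'.1 - ι e.2)) ^ 2 := by positivity
    have h7 : 0 ≤ (a1 : ℤ) * ((ι e'.2 - ι e.1) * (ι e'.2 - ι e.2)) ^ 2 := by positivity
    have h8 : (a0 : ℤ) * ((ι e'.1 - ι e.1) * (ι e'.1 - ι e.2)) ^ 2 = 0 := by linarith
    have h9 : (a1 : ℤ) * ((ι e'.2 - ι e.1) * (ι e'.2 - ι e.2)) ^ 2 = 0 := by linarith
    have h10 : (ι e'.1 - ι e.1) * (ι e'.1 - ι e.2) = 0 := by
      have := (mul_eq_zero.1 h8).resolve_left h0'.ne'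
      exact pow_eq_zero_iff (two_ne_zero) |>.1 this
    have h11 : (ι e'.2 - ι e.1) * (ι e'.2 - ι e.2) = 0 := by
      have := (mul_eq_zero.1 h9).resolve_left h1'.ne'
      exact pow_eq_zero_iff (two_ne_zero) |>.1 this
    have h12 : e'.1 = e.1 ∨ e'.1 = e.2 := by
      rcases mul_eq_zero.1 h10 with h | h
      · exact Or.inl (cast_index_inj hG2.1 hG1.1 (by simp only [hι] at h; omega))
      · exact Or.inr (cast_index_inj hG2.1 hG1.2.1 (by simp only [hι] at h; omega))
    have h13 : e'.2 = e.1 ∨ e'.2 = e.2 := by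
      rcases mul_eq_zero.1 h11 with h | h
      · exact Or.inl (cast_index_inj hG2.2.1 hG1.1 (by simp only [hι] at h; omega))
      · exact Or.inr (cast_index_inj hG2.2.1 hG1.2.1 (by simp only [hι] at h; omega))
    rcases h12 with h12 | h12 <;> rcases h13 with h13 | h13
    · exact absurd (h12.trans h13.symm) hG2.2.2
    · rw [Prod.ext h12 h13]
    · exact (no_rev hG he' he h12 h13).elim
    · exact absurd (h12.trans h13.symm) hG2.2.2
end

end Pool.Agent.X130.LF
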