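import Mathlib
import Pool.Agent.X130.LF.Main

set_option autoImplicit false

/-!
# Solution-free subsets: correctness of the reduction and hardness
-/

namespace Pool.Agent.X130.LF

open Pool.Agent.NPC Pool.Agent.NPC.H634R2

variable {V : List ℕ} {E : List (ℕ × ℕ)}

theorem items_length : (items V E).length = V.length + E.length := by
  simp [items]

/-- the first vertex of an item -/
def fstV : It → ℕ
  | .inl v => v
  | .inr e => e.1

section
variable {l : ℕ} {a : Fin l → ℕ} {b a0 a1 : ℕ}

theorem fwd (hG : IsGraph V E) {k : ℕ} (ha : ∀ i, 0 < a i) (hb : 0 < b) (h0 : 0 < a0)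
    (h1 : 0 < a1) (hsum : ∑ i, a i = a0 + a1) (h : VC ((V, E), k)) :
    FreeSubset (coef a b) (red b a0 a1 ((V, E), k)) := by
  classical
  obtain ⟨C, hCV, hCk, hC⟩ := h
  simp only at hCV hCk hC
  have hnd := items_nodup hG
  set B := bb (a0 + a1 + b) V.length with hB
  set f : It → ℤ := fun q => ((num b a0 a1 B V q : ℕ) : ℤ) with hf
  have hinj : ∀ q ∈ items V E, ∀ q' ∈ items V E, f q = f q' → q = q' := fun q hq q' hq' h =>
    num_inj hG hb h0 h1 hq hq' (by simp only [hf] at h; exact_mod_cast h)
  set keep : It → Prop := fun q => ∀ v, q = .inl v → v ∉ C with hkeep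
  refine ⟨?_, ((items V E).toFinset.filter keep).image f, ?_, ?_, ?_⟩
  · exact List.Nodup.map_on hinj hnd
  · intro x hx
    obtain ⟨q, hq, rfl⟩ := Finset.mem_image.1 hx
    exact List.mem_map.2 ⟨q, List.mem_toFinset.1 (Finset.mem_filter.1 hq).1, rfl⟩
  · rw [Finset.card_image_of_injOn]
    · have h2 := Finset.card_filter_add_card_filter_not (s := (items V E).toFinset) keep
      have h3 : ((items V E).toFinset.filter (fun q => ¬ keep q)).card ≤ C.card := by
        have h4 : (items V E).toFinset.filter (fun q => ¬ keep q) ⊆ C.image Sum.inl := by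
          intro q hq
          have h5 := (Finset.mem_filter.1 hq).2
          simp only [hkeep] at h5
          push Not at h5
          obtain ⟨v, rfl, hv⟩ := h5
          exact Finset.mem_image_of_mem _ hv
        exact (Finset.card_le_card h4).trans Finset.card_image_le
      rw [List.toFinset_card_of_nodup hnd, items_length] at h2
      simp only [red]
      omega
    · intro q hq q' hq' h
      exact hinj q (List.mem_toFinset.1 (Finset.mem_filter.1 hq).1) q'
        (List.mem_toFinset.1 (Finset.mem_filter.1 hq').1) h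
  · intro z hz hs
    have hex : ∀ i, ∃ q, q ∈ items V E ∧ keep q ∧ f q = z i := fun i => by
      obtain ⟨q, hq, h⟩ := Finset.mem_image.1 (hz i)
      exact ⟨q, List.mem_toFinset.1 (Finset.mem_filter.1 hq).1, (Finset.mem_filter.1 hq).2, h⟩
    choose q hq hqk hqz using hex
    set ι : ℕ → ℤ := fun v => ((index V v : ℕ) : ℤ) with hι
    have hmom : ∀ j < 5, ∑ i, coef a b i * val b a0 a1 (fun v => ι v ^ j) (q i) = 0 := by
      refine moments (B := B) (W := ((a0 + a1 + b : ℕ) : ℤ)) (N := (V.length : ℤ) + 1)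
        (by positivity) (by positivity) (by push_cast; omega) ?_ (by push_cast; omega) (by omega)
        ?_ ?_ ?_
      · have : ((∑ i, a i : ℕ) : ℤ) = ((a0 + a1 : ℕ) : ℤ) := by rw [hsum]
        push_cast at this ⊢
        linarith
      · rw [hB]
        unfold bb
        push_cast
        have : (((a0 : ℤ) + a1 + b) * (((a0 : ℤ) + a1 + b) * ((V.length : ℤ) + 1) ^ 4)) =
          ((a0 : ℤ) + a1 + b) * (((a0 : ℤ) + a1 + b) * (((V.length : ℤ) + 1) * ((V.length : ℤ) + 1) *
            ((V.length : ℤ) + 1) * ((V.length : ℤ) + 1))) := by ring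
        omega
      · intro i v hv
        have := index_lt (verts_mem hG (hq i) v hv)
        simp only [hι]
        omega
      · have h2 : ∀ i, val b a0 a1 (fun v => ∑ j ∈ Finset.range 5, (B : ℤ) ^ j * ι v ^ j) (q i) = z i := by
          intro i
          rw [← hqz i]
          exact (num_eq (q i)).symm
        simp only [h2]
        exact hs
    have hedge : ∀ i e, q i = .inr e → e ∈ E := by
      intro i e hi
      rcases mem_items.1 (hq i) with ⟨v, _, h⟩ | ⟨e', he', h⟩
      · rw [hi] at h; exact absurd h (by simp)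
      · rw [hi] at h
        rw [Sum.inr.inj h]
        exact he'
    have hkey := key (Vs := fun v => v ∈ V) ha hb (by exact_mod_cast h0) (by exact_mod_cast h1) hmom
      (fun i => verts_mem hG (hq i)) (fun v w hv hw h => cast_index_inj hv hw h)
      (fun i e hi => (hG.2.1 _ (hedge i e hi)).2.2)
      (fun i j e e' hi hj h2 h3 => no_rev hG (hedge i e hi) (hedge j e' hj) h2 h3)
    rcases hkey with h2 | h2
    · exact triv_of_const (fun i j => by rw [← hqz i, ← hqz j, h2.1 i j]) h2.2
    · exfalso
      obtain ⟨e, ⟨i, hi⟩, ⟨i1, hi1⟩, ⟨i2, hi2⟩⟩ := h2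
      rcases hC e (hedge i e hi) with h3 | h3
      · exact hqk i1 _ hi1 h3
      · exact hqk i2 _ hi2 h3

theorem bwd (hG : IsGraph V E) {k : ℕ} (hk : k ≤ V.length) (i0 : Fin l) (ha0 : a i0 = a0)
    (hb : 0 < b) (h0 : 0 < a0) (h1 : 0 < a1) (hsum : ∑ i, a i = a0 + a1)
    (h : FreeSubset (coef a b) (red b a0 a1 ((V, E), k))) : VC ((V, E), k) := by
  classical
  obtain ⟨hnd', S, hSA, hSc, hS⟩ := h
  have hnd := items_nodup hG
  set B := bb (a0 + a1 + b) V.length with hB
  set f : It → ℤ := fun q => ((num b a0 a1 B V q : ℕ) : ℤ) with hf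
  have hinj : ∀ q ∈ items V E, ∀ q' ∈ items V E, f q = f q' → q = q' := fun q hq q' hq' h =>
    num_inj hG hb h0 h1 hq hq' (by simp only [hf] at h; exact_mod_cast h)
  refine ⟨((items V E).toFinset.filter (fun q => f q ∉ S)).image fstV, ?_, ?_, ?_⟩
  · intro v hv
    obtain ⟨q, hq, rfl⟩ := Finset.mem_image.1 hv
    have h2 := List.mem_toFinset.1 (Finset.mem_filter.1 hq).1
    refine verts_mem hG h2 _ ?_
    cases q <;> simp [verts, fstV]
  · refine Finset.card_image_le.trans ?_
    have h2 := Finset.card_filter_add_card_filter_not (s := (items V E).toFinset) (fun q => f q ∈ S)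
    rw [List.toFinset_card_of_nodup hnd, items_length] at h2
    have h3 : S.card ≤ ((items V E).toFinset.filter (fun q => f q ∈ S)).card := by
      have h4 : S ⊆ ((items V E).toFinset.filter (fun q => f q ∈ S)).image f := by
        intro x hx
        obtain ⟨q, hq, h⟩ := List.mem_map.1 (hSA x hx)
        have h' : f q = x := h
        exact Finset.mem_image.2 ⟨q, Finset.mem_filter.2 ⟨List.mem_toFinset.2 hq, by rw [h']; exact hx⟩, h'⟩
      exact (Finset.card_le_card h4).trans Finset.card_image_le
    simp only [red] at hSc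
    simp only
    omega
  · intro e he
    simp only at he
    by_contra hcon
    push Not at hcon
    have hG' := hG.2.1 _ he
    have hu : ∀ v ∈ V, (v = e.1 ∨ v = e.2) → f (.inl v) ∈ S := by
      intro v hv hve
      by_contra h2
      have h3 : v ∈ ((items V E).toFinset.filter (fun q => f q ∉ S)).image fstV :=
        Finset.mem_image.2 ⟨.inl v, Finset.mem_filter.2 ⟨List.mem_toFinset.2
          (mem_items.2 (Or.inl ⟨v, hv, rfl⟩)), h2⟩, rfl⟩
      rcases hve with rfl | rfl
      · exact hcon.1 h3
      · exact hcon.2 h3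
    have hw : f (.inr e) ∈ S := by
      by_contra h2
      exact hcon.1 (Finset.mem_image.2 ⟨.inr e, Finset.mem_filter.2 ⟨List.mem_toFinset.2
          (mem_items.2 (Or.inr ⟨e, he, rfl⟩)), h2⟩, rfl⟩)
    have hu1 := hu _ hG'.1 (Or.inl rfl)
    have hu2 := hu _ hG'.2.1 (Or.inr rfl)
    set z : Fin (l + 1) → ℤ := Fin.snoc (fun i => if i = i0 then f (.inl e.1) else f (.inl e.2))
      (f (.inr e)) with hz
    have hzc : ∀ i : Fin l, z i.castSucc = if i = i0 then f (.inl e.1) else f (.inl e.2) := by
      intro i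
      simp only [hz]
      rw [Fin.snoc_castSucc (α := fun _ => ℤ)]
    have hzl : z (Fin.last l) = f (.inr e) := by
      simp only [hz]
      rw [Fin.snoc_last (α := fun _ => ℤ)]
    have hzS : ∀ i, z i ∈ S := by
      intro i
      rcases Fin.eq_castSucc_or_eq_last i with ⟨t, rfl⟩ | rfl
      · rw [hzc]
        split_ifs
        · exact hu1
        · exact hu2
      · rw [hzl]
        exact hw
    have hsol : IsSol (coef a b) z := by
      unfold IsSol
      rw [sum_coef, hzl]
      simp only [hzc]
      have h2 : ∑ i : Fin l, (a i : ℤ) * (if i = i0 then f (.inl e.1) else f (.inl e.2)) =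
          a0 * f (.inl e.1) + a1 * f (.inl e.2) := by
        have h3 : ∀ i : Fin l, (a i : ℤ) * (if i = i0 then f (.inl e.1) else f (.inl e.2)) =
            (a i : ℤ) * f (.inl e.2) + (if i = i0 then a0 * (f (.inl e.1) - f (.inl e.2)) else 0) := by
          intro i
          split_ifs with h
          · rw [h, ha0]; ring
          · ring
        rw [Finset.sum_congr rfl fun i _ => h3 i, Finset.sum_add_distrib, ← Finset.sum_mul,
          Finset.sum_ite_eq' Finset.univ i0, if_pos (Finset.mem_univ _)]
        have h4 : (∑ i : Fin l, (a i : ℤ)) = a0 + a1 := by exact_mod_cast hsum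
        rw [h4]
        ring
      rw [h2]
      simp only [hf, num, Sum.elim_inl, Sum.elim_inr]
      push_cast
      ring
    have htriv := (isTriv_iff _ _).1 (hS z hzS hsol) (Fin.last l)
    have hne1 : f (.inl e.1) ≠ f (.inr e) := fun h => by
      have := hinj _ (mem_items.2 (Or.inl ⟨_, hG'.1, rfl⟩)) _ (mem_items.2 (Or.inr ⟨_, he, rfl⟩)) h
      exact absurd this (by simp)
    have hne2 : f (.inl e.2) ≠ f (.inr e) := fun h => by
      have := hinj _ (mem_items.2 (Or.inl ⟨_, hG'.2.1, rfl⟩)) _ (mem_items.2 (Or.inr ⟨_, he, rfl⟩)) h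
      exact absurd this (by simp)
    rw [Fin.sum_univ_castSucc, if_pos rfl, Finset.sum_eq_zero] at htriv
    · have h5 : coef a b (Fin.last l) = -(b : ℤ) := by
        unfold coef
        rw [Fin.snoc_last (α := fun _ => ℤ)]
      rw [h5] at htriv
      omega
    · intro i _
      rw [hzc, hzl, if_neg]
      split_ifs
      · exact hne1
      · exact hne2

/-- the polynomial bounding the integers -/
noncomputable def pol (W : ℕ) : Polynomial ℕ :=
  Polynomial.C W * (1 + Polynomial.X * (Polynomial.C (W * W) * (Polynomial.X + 1) ^ 4 + 1)) ^ 4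

theorem bdd (hG : IsGraph V E) (k : ℕ) : ∀ x ∈ (red b a0 a1 ((V, E), k)).1,
    x.natAbs ≤ (pol (a0 + a1 + b)).eval (red b a0 a1 ((V, E), k)).1.length := by
  intro x hx
  obtain ⟨q, hq, rfl⟩ := List.mem_map.1 hx
  simp only at hq
  have hlen : (red b a0 a1 ((V, E), k)).1.length = V.length + E.length := by
    simp [red, setA, items_length]
  rw [hlen, Int.natAbs_natCast]
  set W := a0 + a1 + b with hW
  set s := V.length + E.length with hs
  simp only [pol, Polynomial.eval_mul, Polynomial.eval_C, Polynomial.eval_pow, Polynomial.eval_add,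
    Polynomial.eval_one, Polynomial.eval_X]
  have hB : bb W V.length ≤ W * W * (s + 1) ^ 4 + 1 := by
    unfold bb
    have h1 : (V.length + 1) * (V.length + 1) * (V.length + 1) * (V.length + 1) =
      (V.length + 1) ^ 4 := by ring
    have h2 : (V.length + 1) ^ 4 ≤ (s + 1) ^ 4 := Nat.pow_le_pow_left (by omega) 4
    rw [h1]
    have h3 : W * (W * (V.length + 1) ^ 4) = W * W * (V.length + 1) ^ 4 := by ring
    rw [h3]
    have := Nat.mul_le_mul_left (W * W) h2
    omega
  have hg : ∀ v ∈ V, geo (index V v * bb W V.length) ≤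
      (1 + s * (W * W * (s + 1) ^ 4 + 1)) ^ 4 := by
    intro v hv
    refine (geo_le _).trans (Nat.pow_le_pow_left ?_ 4)
    have := index_lt hv
    have h4 : index V v * bb W V.length ≤ s * (W * W * (s + 1) ^ 4 + 1) :=
      Nat.mul_le_mul (by omega) hB
    omega
  rcases mem_items.1 hq with ⟨v, hv, rfl⟩ | ⟨e, he, rfl⟩
  · simp only [num, Sum.elim_inl]
    exact Nat.mul_le_mul (by omega) (hg v hv)
  · simp only [num, Sum.elim_inr]
    have hG' := hG.2.1 _ he
    have h5 := Nat.mul_le_mul_left a0 (hg _ hG'.1)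
    have h6 := Nat.mul_le_mul_left a1 (hg _ hG'.2.1)
    calc _ ≤ (a0 + a1) * (1 + s * (W * W * (s + 1) ^ 4 + 1)) ^ 4 := by
          rw [add_mul]; exact Nat.add_le_add h5 h6
      _ ≤ _ := Nat.mul_le_mul_right _ (by omega)

end

/-- Strong NP-hardness for every equation. -/
theorem strong_hard {l : ℕ} (hl : 2 ≤ l) (a : Fin l → ℕ) (ha : ∀ i, 0 < a i) (b : ℕ) (hb : 0 < b) :
    ∃ p : Polynomial ℕ, NPHardP (FreeSubsetBdd (coef a b) p) := by
  obtain ⟨m, rfl⟩ : ∃ m, l = m + 2 := ⟨l - 2, by omega⟩
  set a0 := a 0 with ha0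
  set a1 := ∑ i : Fin (m + 1), a i.succ with ha1
  have hsum : ∑ i, a i = a0 + a1 := by rw [Fin.sum_univ_succ]
  have h0 : 0 < a0 := ha 0
  have h1 : 0 < a1 := by
    rw [ha1, Fin.sum_univ_succ]
    have := ha (Fin.succ 0)
    omega
  refine ⟨pol (a0 + a1 + b), ?_⟩
  refine (hardPr_VC.trans (Pr' := fun _ => True) (red_poly b a0 a1) (fun _ _ => trivial)
    ?_).toHardI.toNPHardP
  rintro ⟨⟨V, E⟩, k⟩ ⟨hG, hk⟩
  simp only at hG hk
  constructor
  · intro h
    exact ⟨bdd hG k, fwd hG ha hb h0 h1 hsum h⟩
  · rintro ⟨-, h⟩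
    exact bwd hG hk 0 rfl hb h0 h1 hsum h

end Pool.Agent.X130.LF
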